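import Pool.Agent.Y89.TW.Stm
import Pool.Agent.Y814.TX.IDEALE

/-!
Job TW-MAX0 (helper983): Lie algebras between the spin Lie algebra and the skew elements,
`n = 0 mod 4`. Uses the files of helper998, helper657 and helper814.
-/

set_option autoImplicit false

open Matrix Finset

namespace Pool.Agent.Y983.TW

open Pool.Agent.Y89.TS Pool.Agent.Y998.TS Pool.Agent.Y657.TV Pool.Agent.Y814.TX
open Pool.Agent.Y89.TW (Btw prs)

section

variable {N : Type} [Fintype N] [DecidableEq N] {n : ℕ} {Γ : Fin n → Matrix N N ℂ}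
  {L : Submodule ℂ (Matrix N N ℂ)}

theorem all0 (h : Mon Γ) (hL : Lie Γ L) (hn4 : n % 4 = 0) {k : ℕ} (hk : k % 4 = 2)
    (hk6 : 6 ≤ k) (hkn : k + 3 ≤ n) (h1 : All Γ L k) :
    ∀ m : ℕ, 4 * m + 2 ≤ n → All Γ L (4 * m + 2) := by
  have h6 : All Γ L 6 := by
    have h2 := hL.step h (x := k - 3) (y := 3) (z := 3)
      (by rw [Nat.odd_iff]; omega) (by decide) (by decide) (by omega)
      (by rw [show k - 3 + 3 = k by omega]; exact h1)
      (by rw [show k - 3 + 3 = k by omega]; exact h1)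
    exact h2
  intro m
  induction m with
  | zero =>
    intro _ s hs
    obtain ⟨a, b, hab, rfl⟩ := Finset.card_eq_two.1 (by simpa using hs)
    exact hL.pair_mem h hab
  | succ m ih =>
    intro hm
    have h2 := ih (by omega)
    have h3 := hL.step h (x := 1) (y := 5) (z := 4 * m + 1) (by decide) (by decide)
      (by rw [Nat.odd_iff]; omega) (by omega) h6
      (by rw [show 1 + (4 * m + 1) = 4 * m + 2 by omega]; exact h2)
    rw [show 5 + (4 * m + 1) = 4 * (m + 1) + 2 by omega] at h3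
    exact h3

theorem all_of_mem (h : Mon Γ) (hL : Lie Γ L) {s : Finset (Fin n)} (hs : Even s.card)
    (h1 : mono Γ s ∈ L) : All Γ L s.card := by
  intro t ht
  exact hL.deg h _ s t le_rfl ht.symm hs h1

theorem smul_mem_iff' {x : ℂ} (hx : x ≠ 0) {a : Matrix N N ℂ} (h : x • a ∈ L) : a ∈ L := by
  have h3 := L.smul_mem x⁻¹ h
  rwa [smul_smul, inv_mul_cancel₀ hx, one_smul] at h3

end

theorem t_max0 : Pool.Agent.Y89.TW.S_max0 := by
  intro N _ _ n Γ hΓ hn4 hn8 τ L hB
  rcases isEmpty_or_nonempty N with hN | hN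
  · left
    intro a _
    have : a = 0 := by
      ext i j
      exact hN.elim i
    rw [this]
    exact Submodule.zero_mem _
  obtain ⟨m1, m2, m3, m4⟩ := Pool.Agent.Y259.TS.t_mono N n Γ hΓ
  have hM : Mon Γ := ⟨hΓ.sq, m1, m2, m3, m4⟩
  have hL : Lie Γ L := ⟨hB.br, hB.pr⟩
  have had : ∀ i j, i ≠ j → ∀ a ∈ L, Γ i * Γ j * a - a * (Γ i * Γ j) ∈ L :=
    fun i j hij a ha => hB.br _ (hB.pr i j hij) _ ha
  by_cases hdeg : ∀ c : Finset (Fin n) → ℂ, (∀ s, c s ≠ 0 → s.card % 4 = 2) →
      ∑ s, c s • mono Γ s ∈ L → ∀ s, c s ≠ 0 → s.card = 2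
  · left
    intro a ha
    obtain ⟨c, hc, rfl⟩ := exists_coef
      (Pool.Agent.Y165.TS.t_comm Pool.Agent.Y259.TS.t_mono N n Γ hΓ a (hB.cm a ha))
    have h42 := skew_coef hM (by omega) hB.anti hB.two hc (hB.sk _ ha)
    refine Submodule.sum_mem _ fun t _ => ?_
    by_cases hct : c t = 0
    · rw [hct, zero_smul]; exact Submodule.zero_mem _
    · apply Submodule.smul_mem
      have h5 := hdeg c h42 ha t hct
      obtain ⟨i, j, hij, rfl⟩ := Finset.card_eq_two.1 h5
      rcases hM.pair hij with h6 | h6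
      · rw [← h6]
        exact Submodule.subset_span ⟨i, j, hij, rfl⟩
      · have h7 : mono Γ {i, j} = -(Γ i * Γ j) := by rw [h6, neg_neg]
        rw [h7]
        exact Submodule.neg_mem _ (Submodule.subset_span ⟨i, j, hij, rfl⟩)
  right
  push Not at hdeg
  obtain ⟨c, h42, haK, s, hcs, hs2'⟩ := hdeg
  have hs4 := h42 s hcs
  have hse : Even s.card := by rw [Nat.even_iff]; omega
  have hs6 : 6 ≤ s.card := by omega
  have hsn : s.card ≤ n := by
    have := Finset.card_le_univ s
    rwa [Fintype.card_fin] at this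
  have hcc := Finset.card_compl s
  rw [Fintype.card_fin] at hcc
  have hK1 := suppK2 hM (by omega) had _ c le_rfl haK s hcs
  by_cases hsn2 : s.card = n - 2
  · -- the complement is a pair
    have h1 : sᶜ.card = 2 := by omega
    obtain ⟨i, j, hij, hsc⟩ := Finset.card_eq_two.1 h1
    have h2 : mono Γ sᶜ ∈ L := by
      rw [hsc]
      exact hL.pair_mem hM hij
    have h3 : c s • mono Γ s ∈ L := by
      have := L.sub_mem hK1 (L.smul_mem (c sᶜ) h2)
      rwa [add_sub_cancel_right] at this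
    have h4 := all_of_mem hM hL hse (smul_mem_iff' hcs h3)
    rw [hsn2] at h4
    exact h4
  have hsn6 : s.card + 6 ≤ n := by omega
  obtain ⟨W, hWdef⟩ : ∃ W, W = mono Γ univ := ⟨_, rfl⟩
  have hWp : ∀ i j, i ≠ j → W * (Γ i * Γ j) = Γ i * Γ j * W := by
    intro i j hij
    have h1 : mono Γ {i, j} * W = W * mono Γ {i, j} := by
      rw [hWdef]
      apply hM.cm
      · rw [Finset.card_pair hij]; exact even_two
      · rw [Finset.inter_univ, Finset.card_pair hij]; exact even_two
    rcases hM.pair hij with h2 | h2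
    · rw [h2, h1]
    · rw [h2, mul_neg, neg_mul, h1]
  have hWs : W * mono Γ s = mono Γ s * W := by
    rw [hWdef]
    exact (hM.cm hse (by rw [Finset.inter_univ]; exact hse)).symm
  obtain ⟨y, hy⟩ : ∃ y : ℂ, c sᶜ • mono Γ sᶜ = y • (W * mono Γ s) := by
    have h1 : symmDiff (univ : Finset (Fin n)) s = sᶜ := top_symmDiff s
    rcases hM.mul univ s with h2 | h2
    · refine ⟨c sᶜ, ?_⟩
      rw [hWdef, h2, h1]
    · refine ⟨-c sᶜ, ?_⟩
      rw [hWdef, h2, h1, smul_neg, neg_smul, neg_neg]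
  obtain ⟨x, hx⟩ : ∃ x, x = c s := ⟨_, rfl⟩
  rw [hy, ← hx] at hK1
  rw [← hx] at hcs
  by_cases hy0 : y = 0
  · have h1 : mono Γ s ∈ L := by
      rw [hy0, zero_smul, add_zero] at hK1
      exact smul_mem_iff' hcs hK1
    have h2 := all0 hM hL hn4 hs4 hs6 (by omega) (all_of_mem hM hL hse h1) ((n - 2) / 4) (by omega)
    rw [show 4 * ((n - 2) / 4) + 2 = n - 2 by omega] at h2
    exact h2
  · obtain ⟨z, hz⟩ : ∃ z : Matrix N N ℂ, z = x • 1 + y • W := ⟨_, rfl⟩
    have hzm : z * mono Γ s ∈ L := by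
      rw [hz, add_mul, smul_mul_assoc, one_mul, smul_mul_assoc]
      exact hK1
    have hzc : z * mono Γ s = mono Γ s * z := by
      rw [hz, add_mul, mul_add, smul_mul_assoc, smul_mul_assoc, mul_smul_comm, mul_smul_comm,
        one_mul, mul_one, hWs]
    have hzp : ∀ i j, i ≠ j → z * (Γ i * Γ j) = Γ i * Γ j * z := by
      intro i j hij
      rw [hz, add_mul, mul_add, smul_mul_assoc, smul_mul_assoc, mul_smul_comm, mul_smul_comm,
        one_mul, mul_one, hWp i j hij]
    obtain ⟨e, he⟩ : s.Nonempty := Finset.card_pos.1 (by omega)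
    obtain ⟨f, hf⟩ : sᶜ.Nonempty := Finset.card_pos.1 (by omega)
    rw [Finset.mem_compl] at hf
    have hef : e ≠ f := fun h' => hf (h' ▸ he)
    have h1 := cutz hM hB.br had hzc hzp hzm he hf
    have hW2 : W * W = 1 := by
      have h3 := mono_sq_even hM (n / 2) (univ : Finset (Fin n)) (by
        rw [Finset.card_univ, Fintype.card_fin]; omega)
      have h4 : Even (n / 2) := by rw [Nat.even_iff]; omega
      rw [h4.neg_one_pow, one_smul, ← hWdef] at h3
      exact h3
    have hzz : z * z = (x * x + y * y) • 1 + (2 * x * y) • W := by rw [hz]; exact zz_sq hW2 x y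
    rw [hzz, add_mul, smul_mul_assoc, smul_mul_assoc, one_mul] at h1
    have h2 : (2 * x * y) • (W * (Γ e * Γ f)) ∈ L := by
      have := L.sub_mem h1 (L.smul_mem (x * x + y * y) (hB.pr e f hef))
      rwa [add_sub_cancel_left] at this
    have h3 : W * (Γ e * Γ f) ∈ L :=
      smul_mem_iff' (mul_ne_zero (mul_ne_zero two_ne_zero hcs) hy0) h2
    have h4 : W * mono Γ {e, f} ∈ L := by
      rcases hM.pair hef with h5 | h5
      · rwa [h5] at h3
      · rw [h5, mul_neg] at h3
        exact (Submodule.neg_mem_iff L).1 h3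
    have h5 : mono Γ ({e, f} : Finset (Fin n))ᶜ ∈ L := by
      have h6 : symmDiff (univ : Finset (Fin n)) {e, f} = ({e, f} : Finset (Fin n))ᶜ :=
        top_symmDiff _
      rw [hWdef] at h4
      rcases hM.mul univ {e, f} with h7 | h7
      · rwa [h7, h6] at h4
      · rw [h7, h6] at h4
        exact (Submodule.neg_mem_iff L).1 h4
    have h6 : ({e, f} : Finset (Fin n))ᶜ.card = n - 2 := by
      rw [Finset.card_compl, Fintype.card_fin, Finset.card_pair hef]
    have h7 := all_of_mem hM hL (s := ({e, f} : Finset (Fin n))ᶜ)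
      (by rw [h6, Nat.even_iff]; omega) h5
    rw [h6] at h7
    exact h7

end Pool.Agent.Y983.TW

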